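import Pool.Agent.Lib.MP_f83138_lc.DR.Defs

/-!
Configurations of machines with lists instead of tapes.
-/

set_option autoImplicit false

namespace Pool.Agent.D3

open Pool.Agent.DR

/-- A configuration with lists: on each work tape the symbols to the left of the head (the nearest first)
and the symbols from the head on. -/
structure LC (M : Machine) where
  q : M.Q
  i : ℕ
  T : Fin M.k → List M.Γ × List M.Γ

variable (M : Machine)

/-- Write `w` and move. -/
def wr (w : M.Γ) (m : Move) (p : List M.Γ × List M.Γ) : List M.Γ × List M.Γ :=
  match m with
  | .left => (p.1.tail, p.1.headD M.blank :: w :: p.2.tail)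
  | .stay => (p.1, w :: p.2.tail)
  | .right => (w :: p.1, p.2.tail)

/-- The result of the transition function. -/
def LC.out (x : List Bool) (c : LC M) : Option (M.Q × Move × (Fin M.k → M.Γ × Move)) :=
  M.step c.q (sym x c.i) fun j => (c.T j).2.headD M.blank

/-- The next configuration (the same one if the machine halts). -/
def LC.next (x : List Bool) (c : LC M) : LC M :=
  match c.out M x with
  | none => c
  | some r => ⟨r.1, r.2.1.input x.length c.i, fun j => wr M (r.2.2 j).1 (r.2.2 j).2 (c.T j)⟩

/-- The start configuration. -/
def LC.init : LC M := ⟨M.start, 1, fun _ => ([], [])⟩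

/-- The configuration with lists `c` represents the configuration `C`, and the listed cells are
visited on input `x`. -/
structure Rep (x : List Bool) (C : M.Config) (c : LC M) : Prop where
  q : c.q = C.q
  i : c.i = C.i
  ile : c.i ≤ x.length + 1
  right : ∀ j (m : ℕ), C.tape j (C.pos j + m) = (c.T j).2.getD m M.blank
  left : ∀ j (m : ℕ), C.tape j (C.pos j - 1 - m) = (c.T j).1.getD m M.blank
  vis : ∀ j (z : ℤ), C.pos j - (c.T j).1.length ≤ z → z < C.pos j + (c.T j).2.length →
    (j, z) ∈ M.cells x

end Pool.Agent.D3
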