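import Pool.Agent.Lib.MP_f83138_lc.DR.Defs

/-!
The statement: classes of digraphs and machines which decide reachability on a class.
-/

set_option autoImplicit false

namespace Pool.Agent.D3

open Pool.Agent.DR

/-- A class of finite digraphs (on the vertex sets `Fin n`). -/
abbrev GClass : Type := ∀ n : ℕ, (Fin n → Fin n → Bool) → Prop

/-- All digraphs. -/
def allDigraphs : GClass := fun _ _ => True

/-- The digraphs in which every vertex `v` has total degree (number of out-neighbours plus number of
in-neighbours) at most three. -/
def degThree : GClass := fun _ H => ∀ v,
  (Finset.univ.filter fun u => H v u = true).card +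
    (Finset.univ.filter fun u => H u v = true).card ≤ 3

/-- The machine `M` decides directed reachability for the digraphs in `C` in polynomial time and in
space `O(n ^ e)`: for some constant `K`, for all digraphs `H` in `C` with `n` vertices and all vertices
`s`, `t` it halts on the string for `(H, s, t)` after at most `K * n ^ K` steps, visits at most
`K * n ^ e` cells of its work tapes, and accepts if and only if there is a path from `s` to `t`. Nothing
is required on the other inputs. -/
def Decides (M : Machine) (C : GClass) (e : ℝ) : Prop :=
  ∃ K : ℕ, ∀ (n : ℕ) (H : Fin n → Fin n → Bool) (s t : Fin n), C n H →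
    M.Halts (code H s t) ∧ M.time (code H s t) ≤ K * n ^ K ∧
      (M.cells (code H s t)).Finite ∧ ((M.cells (code H s t)).ncard : ℝ) ≤ K * (n : ℝ) ^ e ∧
      (M.Accepts (code H s t) ↔ Reach H s t)

/-- Directed reachability for the digraphs in `C` is decidable by a deterministic Turing machine in
polynomial time and space `O(n ^ e)`. -/
def Solvable (C : GClass) (e : ℝ) : Prop := ∃ M : Machine, Decides M C e

end Pool.Agent.D3
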